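import Pool.Agent.Y675.LN.Stm

/-! LN-LARGE (job 3283, helper929 for helper675) -/

set_option autoImplicit false

open Finset

namespace Pool.Agent.Y929.LN

open Pool.Agent.Y675.LN

/-- integers of an interval in given classes -/
theorem cnt {M : ℕ} (hM : 0 < M) (J x0 w : ℕ) (C : Set (ZMod M)) (hC : C.ncard ≤ w) (U : Finset ℕ)
    (hU : ∀ n ∈ U, x0 < n ∧ n ≤ x0 + J * M ∧ (n : ZMod M) ∈ C) : U.card ≤ J * w := by
  classical
  have : NeZero M := ⟨hM.ne'⟩
  have hfin : C.Finite := Set.toFinite C
  have h1 : U.card ≤ ((range J) ×ˢ hfin.toFinset).card := by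
    refine Finset.card_le_card_of_injOn (fun n => ((n - x0 - 1) / M, (n : ZMod M))) ?_ ?_
    · intro n hn
      obtain ⟨a1, a2, a3⟩ := hU n hn
      rw [Finset.mem_coe, Finset.mem_product]
      refine ⟨Finset.mem_range.2 ?_, hfin.mem_toFinset.2 a3⟩
      simp only
      rw [Nat.div_lt_iff_lt_mul hM]
      omega
    · intro n hn m hm h
      obtain ⟨a1, a2, a3⟩ := hU n hn
      obtain ⟨b1, b2, b3⟩ := hU m hm
      simp only [Prod.mk.injEq] at h
      obtain ⟨h2, h3⟩ := h
      have h4 : n ≡ m [MOD M] := (ZMod.natCast_eq_natCast_iff n m M).1 h3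
      have h5 : (n - x0 - 1) + (x0 + 1) ≡ (m - x0 - 1) + (x0 + 1) [MOD M] := by
        have e1 : (n - x0 - 1) + (x0 + 1) = n := by omega
        have e2 : (m - x0 - 1) + (x0 + 1) = m := by omega
        rw [e1, e2]
        exact h4
      have h6 : (n - x0 - 1) % M = (m - x0 - 1) % M := Nat.ModEq.add_right_cancel' _ h5
      have h7 := Nat.div_add_mod (n - x0 - 1) M
      have h8 := Nat.div_add_mod (m - x0 - 1) M
      rw [h2, h6] at h7
      omega
  rw [Finset.card_product, Finset.card_range] at h1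
  refine h1.trans (Nat.mul_le_mul_left _ ?_)
  rw [← Set.ncard_eq_toFinset_card C hfin]
  exact hC

/-- a sum over the multiples of `d` -/
theorem fib {α : Type} [DecidableEq α] (T : Finset α) (f : α → ℕ) (d B b : ℕ)
    (h1 : ∀ x ∈ T, 0 < f x ∧ f x ≤ B ∧ d ∣ f x) (h2 : ∀ v, (T.filter (fun x => f x = v)).card ≤ b) :
    d * T.card ≤ B * b := by
  have h3 := Finset.card_le_mul_card_image (f := f) T b (fun v _ => h2 v)
  have h4 : (T.image f).card ≤ B / d := by
    rw [← Nat.Ioc_filter_dvd_card_eq_div B d]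
    refine Finset.card_le_card fun v hv => ?_
    obtain ⟨x, hx, rfl⟩ := Finset.mem_image.1 hv
    obtain ⟨a1, a2, a3⟩ := h1 x hx
    exact Finset.mem_filter.2 ⟨Finset.mem_Ioc.2 ⟨a1, a2⟩, a3⟩
  calc d * T.card ≤ d * (b * (B / d)) := Nat.mul_le_mul_left _ (h3.trans (Nat.mul_le_mul_left _ h4))
    _ = (d * (B / d)) * b := by ring
    _ ≤ B * b := Nat.mul_le_mul_right _ (Nat.mul_div_le B d)

/-- projection of a fibre -/
theorem proj {α β : Type} (f : α → β) (A : Set α) (hA : A.Finite) (C : Set β) {w : ℕ}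
    (hw : A.ncard ≤ w) (h : ∀ c ∈ C, ∃ a ∈ A, f a = c) : C.ncard ≤ w := by
  have h1 : C ⊆ f '' A := fun c hc => by
    obtain ⟨a, ha, h2⟩ := h c hc
    exact ⟨a, ha, h2⟩
  exact (Set.ncard_le_ncard h1 (hA.image f)).trans ((Set.ncard_image_le hA).trans hw)

theorem t (h : S_FIB) : S_LARGE := by
  classical
  intro k A M J d hk hM hJ hd hMd hAM
  have : NeZero M := ⟨hM.ne'⟩
  obtain ⟨w, hw⟩ : ∃ w, w = 3 ^ om M := ⟨_, rfl⟩
  obtain ⟨K, hK⟩ : ∃ K, K = 3 * k := ⟨_, rfl⟩
  have hK0 : 0 < K := by omega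
  have hKc : (3 * (k : ZMod M)) = ((K : ℕ) : ZMod M) := by rw [hK]; push_cast; ring
  obtain ⟨T, hT⟩ : ∃ T : Finset (ℕ × ℕ), T = ((Ioc (K * J * M) (2 * (K * J * M))) ×ˢ (Ioc 0 (J * M))).filter
    (fun x => ((x.1 : ZMod M), (x.2 : ZMod M)) ∈ S k A M) := ⟨_, rfl⟩
  have hmem : ∀ x, x ∈ T ↔ x ∈ Pr k A M J := by
    intro x
    rw [hT, Finset.mem_filter, Finset.mem_product, Finset.mem_Ioc, Finset.mem_Ioc, hK]
    unfold Pr
    simp only [Set.mem_ofPred_eq]
    tauto
  have hTf : ∀ x ∈ T, K * J * M < x.1 ∧ x.1 ≤ 2 * (K * J * M) ∧ 0 < x.2 ∧ x.2 ≤ J * M ∧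
      ((x.1 : ZMod M), (x.2 : ZMod M)) ∈ S k A M := by
    intro x hx
    have := (hmem x).1 hx
    rw [hK]
    exact this
  have hset : ∀ q : ℕ × ℕ → Prop, {x ∈ Pr k A M J | q x}.ncard = (T.filter q).card := by
    intro q
    rw [← Set.ncard_coe_finset]
    congr 1
    ext x
    rw [Finset.mem_coe, Finset.mem_filter, hmem]
    rfl
  have hFIB := h k A M hM hAM
  rw [← hw] at hFIB
  -- the fibres of the first coordinate
  have hKx : ∀ x ∈ T, K * x.2 ≤ K * J * M := by
    intro x hx
    obtain ⟨-, -, -, h4, -⟩ := hTf x hx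
    rw [mul_assoc]
    exact Nat.mul_le_mul_left _ h4
  have hC1 : ∀ c : ZMod M, {y : ZMod M | (c, y) ∈ S k A M}.ncard ≤ w := by
    intro c
    refine proj Prod.snd {x ∈ S k A M | x.1 = c} (Set.toFinite _) _ (hFIB c).1 ?_
    intro y hy
    exact ⟨(c, y), ⟨hy, rfl⟩, rfl⟩
  have hC2 : ∀ c : ZMod M, {y : ZMod M | (y, c) ∈ S k A M}.ncard ≤ w := by
    intro c
    refine proj Prod.fst {x ∈ S k A M | x.2 = c} (Set.toFinite _) _ (hFIB c).2.1 ?_
    intro y hy
    exact ⟨(y, c), ⟨hy, rfl⟩, rfl⟩
  have hC3 : ∀ c : ZMod M, {y : ZMod M | (c + (K : ZMod M) * y, y) ∈ S k A M}.ncard ≤ w := by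
    intro c
    refine proj Prod.snd {x ∈ S k A M | x.1 - 3 * (k : ZMod M) * x.2 = c} (Set.toFinite _) _
      (hFIB c).2.2.1 ?_
    intro y hy
    refine ⟨(c + (K : ZMod M) * y, y), ⟨hy, ?_⟩, rfl⟩
    simp only
    rw [hKc]
    ring
  have hC4 : ∀ c : ZMod M, {y : ZMod M | (c - (K : ZMod M) * y, y) ∈ S k A M}.ncard ≤ w := by
    intro c
    refine proj Prod.snd {x ∈ S k A M | x.1 + 3 * (k : ZMod M) * x.2 = c} (Set.toFinite _) _
      (hFIB c).2.2.2 ?_
    intro y hy
    refine ⟨(c - (K : ZMod M) * y, y), ⟨hy, ?_⟩, rfl⟩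
    simp only
    rw [hKc]
    ring
  constructor
  · rw [hset]
    -- (2)
    have b1 : d * (T.filter (fun x => d ∣ x.1)).card ≤ (2 * (K * J * M)) * (J * w) := by
      refine fib _ Prod.fst d _ _ ?_ ?_
      · intro x hx
        obtain ⟨hx1, hx2⟩ := Finset.mem_filter.1 hx
        obtain ⟨h1, h2, h3, h4, h5⟩ := hTf x hx1
        exact ⟨by omega, h2, hx2⟩
      · intro v
        rw [← Finset.card_image_of_injOn (f := Prod.snd)]
        · refine cnt hM J 0 w {y : ZMod M | ((v : ZMod M), y) ∈ S k A M} (hC1 _) _ ?_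
          intro n hn
          obtain ⟨x, hx, rfl⟩ := Finset.mem_image.1 hn
          obtain ⟨hx1, hx2⟩ := Finset.mem_filter.1 hx
          obtain ⟨h1, h2, h3, h4, h5⟩ := hTf x (Finset.mem_filter.1 hx1).1
          refine ⟨h3, by omega, ?_⟩
          rw [← hx2]
          exact h5
        · intro x hx y hy hxy
          obtain ⟨-, hx2⟩ := Finset.mem_filter.1 hx
          obtain ⟨-, hy2⟩ := Finset.mem_filter.1 hy
          exact Prod.ext (hx2.trans hy2.symm) hxy
    -- (3)
    have b2 : d * (T.filter (fun x => d ∣ x.2)).card ≤ (J * M) * ((K * J) * w) := by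
      refine fib _ Prod.snd d _ _ ?_ ?_
      · intro x hx
        obtain ⟨hx1, hx2⟩ := Finset.mem_filter.1 hx
        obtain ⟨h1, h2, h3, h4, h5⟩ := hTf x hx1
        exact ⟨h3, h4, hx2⟩
      · intro v
        rw [← Finset.card_image_of_injOn (f := Prod.fst)]
        · refine cnt hM (K * J) (K * J * M) w {y : ZMod M | (y, (v : ZMod M)) ∈ S k A M} (hC2 _) _ ?_
          intro n hn
          obtain ⟨x, hx, rfl⟩ := Finset.mem_image.1 hn
          obtain ⟨hx1, hx2⟩ := Finset.mem_filter.1 hx
          obtain ⟨h1, h2, h3, h4, h5⟩ := hTf x (Finset.mem_filter.1 hx1).1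
          refine ⟨h1, by omega, ?_⟩
          rw [← hx2]
          exact h5
        · intro x hx y hy hxy
          obtain ⟨-, hx2⟩ := Finset.mem_filter.1 hx
          obtain ⟨-, hy2⟩ := Finset.mem_filter.1 hy
          exact Prod.ext hxy (hx2.trans hy2.symm)
    -- (4)
    have b3 : d * (T.filter (fun x => d ∣ x.1 - K * x.2)).card ≤ (2 * (K * J * M)) * (J * w) := by
      refine fib _ (fun x => x.1 - K * x.2) d _ _ ?_ ?_
      · intro x hx
        obtain ⟨hx1, hx2⟩ := Finset.mem_filter.1 hx
        obtain ⟨h1, h2, h3, h4, h5⟩ := hTf x hx1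
        have h6 := hKx x hx1
        exact ⟨by omega, by omega, hx2⟩
      · intro v
        rw [← Finset.card_image_of_injOn (f := Prod.snd)]
        · refine cnt hM J 0 w {y : ZMod M | ((v : ZMod M) + (K : ZMod M) * y, y) ∈ S k A M} (hC3 _) _ ?_
          intro n hn
          obtain ⟨x, hx, rfl⟩ := Finset.mem_image.1 hn
          obtain ⟨hx1, hx2⟩ := Finset.mem_filter.1 hx
          obtain ⟨h1, h2, h3, h4, h5⟩ := hTf x (Finset.mem_filter.1 hx1).1
          have h6 := hKx x (Finset.mem_filter.1 hx1).1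
          refine ⟨h3, by omega, ?_⟩
          have h7 : x.1 = v + K * x.2 := by omega
          show ((v : ZMod M) + (K : ZMod M) * (x.2 : ZMod M), (x.2 : ZMod M)) ∈ S k A M
          have h8 : (v : ZMod M) + (K : ZMod M) * (x.2 : ZMod M) = (x.1 : ZMod M) := by
            rw [h7]
            push_cast
            ring
          rw [h8]
          exact h5
        · intro x hx y hy hxy
          obtain ⟨hx1, hx2⟩ := Finset.mem_filter.1 hx
          obtain ⟨hy1, hy2⟩ := Finset.mem_filter.1 hy
          have hx3 := (Finset.mem_filter.1 hx1).1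
          have hy3 := (Finset.mem_filter.1 hy1).1
          obtain ⟨h1, -⟩ := hTf x hx3
          obtain ⟨g1, -⟩ := hTf y hy3
          have h6 := hKx x hx3
          have g6 := hKx y hy3
          refine Prod.ext ?_ hxy
          rw [hxy] at hx2 h6
          omega
    -- (5)
    have b4 : d * (T.filter (fun x => d ∣ x.1 + K * x.2)).card ≤ (3 * (K * J * M)) * (J * w) := by
      refine fib _ (fun x => x.1 + K * x.2) d _ _ ?_ ?_
      · intro x hx
        obtain ⟨hx1, hx2⟩ := Finset.mem_filter.1 hx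
        obtain ⟨h1, h2, h3, h4, h5⟩ := hTf x hx1
        have h6 := hKx x hx1
        exact ⟨by omega, by omega, hx2⟩
      · intro v
        rw [← Finset.card_image_of_injOn (f := Prod.snd)]
        · refine cnt hM J 0 w {y : ZMod M | ((v : ZMod M) - (K : ZMod M) * y, y) ∈ S k A M} (hC4 _) _ ?_
          intro n hn
          obtain ⟨x, hx, rfl⟩ := Finset.mem_image.1 hn
          obtain ⟨hx1, hx2⟩ := Finset.mem_filter.1 hx
          obtain ⟨h1, h2, h3, h4, h5⟩ := hTf x (Finset.mem_filter.1 hx1).1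
          refine ⟨h3, by omega, ?_⟩
          show ((v : ZMod M) - (K : ZMod M) * (x.2 : ZMod M), (x.2 : ZMod M)) ∈ S k A M
          have h8 : (v : ZMod M) - (K : ZMod M) * (x.2 : ZMod M) = (x.1 : ZMod M) := by
            rw [← hx2]
            push_cast
            ring
          rw [h8]
          exact h5
        · intro x hx y hy hxy
          obtain ⟨hx1, hx2⟩ := Finset.mem_filter.1 hx
          obtain ⟨hy1, hy2⟩ := Finset.mem_filter.1 hy
          refine Prod.ext ?_ hxy
          rw [hxy] at hx2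
          omega
    have hsub : (T.filter (fun x => Dv k d x)).card ≤ (T.filter (fun x => d ∣ x.1)).card +
        (T.filter (fun x => d ∣ x.2)).card + (T.filter (fun x => d ∣ x.1 - K * x.2)).card +
        (T.filter (fun x => d ∣ x.1 + K * x.2)).card := by
      have h1 : T.filter (fun x => Dv k d x) ⊆ ((T.filter (fun x => d ∣ x.1) ∪
          T.filter (fun x => d ∣ x.2)) ∪ T.filter (fun x => d ∣ x.1 - K * x.2)) ∪
          T.filter (fun x => d ∣ x.1 + K * x.2) := by
        intro x hx
        obtain ⟨hx1, hx2⟩ := Finset.mem_filter.1 hx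
        simp only [Finset.mem_union, Finset.mem_filter]
        unfold Dv at hx2
        rw [← hK] at hx2
        tauto
      refine (Finset.card_le_card h1).trans ((Finset.card_union_le _ _).trans ?_)
      refine Nat.add_le_add_right ((Finset.card_union_le _ _).trans ?_) _
      exact Nat.add_le_add_right (Finset.card_union_le _ _) _
    calc d * (T.filter (fun x => Dv k d x)).card ≤ d * ((T.filter (fun x => d ∣ x.1)).card +
        (T.filter (fun x => d ∣ x.2)).card + (T.filter (fun x => d ∣ x.1 - K * x.2)).card +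
        (T.filter (fun x => d ∣ x.1 + K * x.2)).card) := Nat.mul_le_mul_left _ hsub
      _ ≤ (2 * (K * J * M)) * (J * w) + (J * M) * ((K * J) * w) + (2 * (K * J * M)) * (J * w) +
          (3 * (K * J * M)) * (J * w) := by
        rw [mul_add, mul_add, mul_add]
        exact Nat.add_le_add (Nat.add_le_add (Nat.add_le_add b1 b2) b3) b4
      _ = 24 * k * J ^ 2 * M * 3 ^ om M := by
        rw [← hw, hK]
        ring
  · rw [hset]
    -- the second part
    have hco : IsUnit ((d : ℕ) : ZMod M) := (ZMod.isUnit_iff_coprime d M).2 hMd.symm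
    have b1 : d * (T.filter (fun x => d ∣ x.1 ∧ d ∣ x.2)).card ≤
        (2 * (K * J * M)) * ((J / d + 1) * w) := by
      refine fib _ Prod.fst d _ _ ?_ ?_
      · intro x hx
        obtain ⟨hx1, hx2⟩ := Finset.mem_filter.1 hx
        obtain ⟨h1, h2, h3, h4, h5⟩ := hTf x hx1
        exact ⟨by omega, h2, hx2.1⟩
      · intro v
        rw [← Finset.card_image_of_injOn (f := fun x : ℕ × ℕ => x.2 / d)]
        · refine cnt hM (J / d + 1) 0 w {y : ZMod M | ((v : ZMod M), (d : ZMod M) * y) ∈ S k A M} ?_ _ ?_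
          · refine le_trans ?_ (hC1 (v : ZMod M))
            refine Set.ncard_le_ncard_of_injOn (fun y => (d : ZMod M) * y) (fun y hy => hy) ?_
              (Set.toFinite _)
            intro y _ z _ hyz
            exact hco.mul_left_cancel hyz
          · intro n hn
            obtain ⟨x, hx, rfl⟩ := Finset.mem_image.1 hn
            obtain ⟨hx1, hx2⟩ := Finset.mem_filter.1 hx
            obtain ⟨hx3, hx4, hx5⟩ := Finset.mem_filter.1 hx1
            obtain ⟨h1, h2, h3, h4, h5⟩ := hTf x hx3
            obtain ⟨e, he⟩ := hx5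
            have hde : x.2 / d = e := by rw [he]; exact Nat.mul_div_cancel_left _ hd
            simp only [hde]
            refine ⟨?_, ?_, ?_⟩
            · rcases Nat.eq_zero_or_pos e with h0 | h0
              · rw [h0, mul_zero] at he
                omega
              · exact h0
            · rw [zero_add]
              have h7 : J < d * (J / d + 1) := Nat.lt_mul_div_succ J hd
              have h8 : d * e ≤ d * ((J / d + 1) * M) := by
                rw [← he]
                refine h4.trans ?_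
                rw [← mul_assoc]
                exact Nat.mul_le_mul_right _ h7.le
              exact Nat.le_of_mul_le_mul_left h8 hd
            · show ((v : ZMod M), (d : ZMod M) * (e : ZMod M)) ∈ S k A M
              have h8 : (d : ZMod M) * (e : ZMod M) = (x.2 : ZMod M) := by
                rw [he]
                push_cast
                ring
              rw [h8, ← hx2]
              exact h5
        · intro x hx y hy hxy
          obtain ⟨hx1, hx2⟩ := Finset.mem_filter.1 hx
          obtain ⟨hy1, hy2⟩ := Finset.mem_filter.1 hy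
          have hx5 := (Finset.mem_filter.1 hx1).2.2
          have hy5 := (Finset.mem_filter.1 hy1).2.2
          refine Prod.ext (hx2.trans hy2.symm) ?_
          simp only at hxy
          rw [← Nat.div_mul_cancel hx5, ← Nat.div_mul_cancel hy5, hxy]
    have b2 : d * (J / d + 1) ≤ J + d := by
      rw [mul_add, mul_one]
      exact Nat.add_le_add_right (Nat.mul_div_le J d) _
    have b3 : d ^ 2 * (T.filter (fun x => d ∣ x.1 ∧ d ∣ x.2)).card ≤
        6 * k * J * M * 3 ^ om M * (J + d) := by
     calc d ^ 2 * (T.filter (fun x => d ∣ x.1 ∧ d ∣ x.2)).card =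
        d * (d * (T.filter (fun x => d ∣ x.1 ∧ d ∣ x.2)).card) := by ring
      _ ≤ d * ((2 * (K * J * M)) * ((J / d + 1) * w)) := Nat.mul_le_mul_left _ b1
      _ = (2 * (K * J * M)) * w * (d * (J / d + 1)) := by ring
      _ ≤ (2 * (K * J * M)) * w * (J + d) := Nat.mul_le_mul_left _ b2
      _ = 6 * k * J * M * 3 ^ om M * (J + d) := by
        rw [← hw, hK]
        ring
    convert b3 using 3
    ext x
    simp only [Finset.mem_filter]

end Pool.Agent.Y929.LN
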